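import Mathlib
import Pool.Agent.Q80.Schur

/-!
# `(1 + k + k^2) / k!` is not a complex zero decreasing sequence

If it were, the reciprocal sequence `k! / (1 + k + k^2)` would map positive polynomials to positive
polynomials, so its Hankel forms would be positive.  The Hankel form of size 40 is not: we exhibit an
integer vector.
-/

open Polynomial

namespace Pool.Agent.Results.MP_664f87_an.NotComplexZeroDecreasing

open Q80.RR

/-- number of non-real complex zeros, counted with multiplicity -/
noncomputable def nonrealCount (f : ℝ[X]) : ℕ := by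
  classical
  exact Multiset.countP (fun z : ℂ => z.im ≠ 0) (f.map (algebraMap ℝ ℂ)).roots

/-- `∑ a_k x^k ↦ ∑ γ_k a_k x^k` -/
noncomputable def diagOp (γ : ℕ → ℝ) (f : ℝ[X]) : ℝ[X] :=
  ∑ k ∈ Finset.range (f.natDegree + 1), C (γ k * f.coeff k) * X ^ k

/-- complex zero decreasing sequences -/
def IsCZDS (γ : ℕ → ℝ) : Prop := ∀ f : ℝ[X], nonrealCount (diagOp γ f) ≤ nonrealCount f

/-- `γ_k = (1 + k + k^2) / k!` -/
noncomputable def gam (k : ℕ) : ℝ := (1 + (k : ℝ) + (k : ℝ) ^ 2) / (k.factorial : ℝ)

/-- coefficients of the test polynomial -/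
def A : List ℤ := [
  193779879771375711907082676529077524889600000000,
  -4997481109893373622866869026276209852416000000000,
  39699378000530524136753648336286013980672000000000,
  -147647803013405338480033386009649355528601600000000,
  311164308374228904666282301201204002580070400000000,
  -415259545131573742518221335986841714729943040000000,
  377456990738779977488162060627666180316856320000000,
  -246017531672773244289654584530806959127920640000000,
  119445022532652459406285742793212060164423680000000,
  -44481870728373206911644601085557101601751040000000,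
  13002577954259948266992491492068350354259968000000,
  -3039226926063269846025574001618461444276224000000,
  576713458483022264267697111927861025701888000000,
  -89959873583329108144330432972071550058496000000,
  11655894935990632687725142410198912073728000000,
  -1265391752776139129459618414601176481792000000,
  115943274903283741398940343997342474240000000,
  -9020771923515307281570296517965660160000000,
  598968162686572103598263495625572352000000,
  -34080825465172890425577995745546240000000,
  1667190886396063628354512948270080000000,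
  -70293680333845436426431619104358400000,
  2558999804468670927135509030092800000,
  -80519586385006929660680865484800000,
  2190527127130457103635156590080000,
  -51501678417419415410819039846400,
  1045144671907355697007249920000,
  -18267466418479506035808000000,
  274120882966035066407846400,
  -3516009619643670743193600,
  38320524562314557122560,
  -352117105833262049280,
  2699767373669926560,
  -17035634086773120,
  86821265299860,
  -348054318612,
  1055362581,
  -2272647,
  3094,
  -2]

/-- common denominator -/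
def Den : ℕ := ∏ k ∈ Finset.range 79, (1 + k + k ^ 2)

set_option maxRecDepth 100000 in
lemma numeric : (Den : ℤ) + ∑ i ∈ Finset.range 40, ∑ j ∈ Finset.range 40,
    A.getD i 0 * A.getD j 0 * ((i + j).factorial : ℤ) *
      ((Den / (1 + (i + j) + (i + j) ^ 2) : ℕ) : ℤ) < 0 := by
  decide +kernel

lemma Den_pos : 0 < Den := Finset.prod_pos fun k _ => by positivity

lemma dvd_Den {k : ℕ} (hk : k < 79) : (1 + k + k ^ 2) ∣ Den :=
  Finset.dvd_prod_of_mem (fun k => 1 + k + k ^ 2) (Finset.mem_range.2 hk)

attribute [irreducible] A Den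

/-- the test polynomial -/
noncomputable def P : ℝ[X] := ∑ i ∈ Finset.range 40, monomial i ((A.getD i 0 : ℤ) : ℝ)

/-- the positive polynomial -/
noncomputable def q : ℝ[X] := P ^ 2 + 1

/-- the inverse sequence -/
noncomputable def inv (k : ℕ) : ℝ := (k.factorial : ℝ) / (1 + (k : ℝ) + (k : ℝ) ^ 2)

/-- the counterexample -/
noncomputable def f : ℝ[X] := hm inv q

lemma diagOp_eq (γ : ℕ → ℝ) (p : ℝ[X]) : diagOp γ p = hm γ p := by
  unfold diagOp hm
  apply Finset.sum_congr rfl
  intro k _
  rw [C_mul_X_pow_eq_monomial]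

lemma q_pos (x : ℝ) : 0 < q.eval x := by
  unfold q
  rw [eval_add, eval_pow, eval_one]
  positivity

lemma op_f : diagOp gam f = q := by
  rw [diagOp_eq]
  unfold f
  rw [hm_hm]
  have : (fun k => gam k * inv k) = fun _ => 1 := by
    funext k
    unfold gam inv
    have h1 : (k.factorial : ℝ) ≠ 0 := by positivity
    have h2 : (1 + (k : ℝ) + (k : ℝ) ^ 2) ≠ 0 := by positivity
    field_simp
  rw [this, hm_one]

/-- the functional `p ↦ (hm inv p)(1)` -/
noncomputable def Lam : ℝ[X] →ₗ[ℝ] ℝ where
  toFun p := (hm inv p).eval 1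
  map_add' p r := by
    rw [← eval_add]
    congr 1
    ext k
    rw [coeff_add, coeff_hm, coeff_hm, coeff_hm, coeff_add]; ring
  map_smul' c p := by
    rw [RingHom.id_apply, ← eval_smul]
    congr 1
    ext k
    rw [coeff_smul, coeff_hm, coeff_hm, coeff_smul, smul_eq_mul, smul_eq_mul]; ring

lemma Lam_monomial (k : ℕ) (c : ℝ) : Lam (monomial k c) = inv k * c := by
  change (hm inv (monomial k c)).eval 1 = _
  have : hm inv (monomial k c) = monomial k (inv k * c) := by
    ext j
    rw [coeff_hm, coeff_monomial, coeff_monomial]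
    split_ifs with h
    · rw [h]
    · simp
  rw [this, eval_monomial, one_pow, mul_one]

lemma Lam_q : Lam q = 1 + ∑ i ∈ Finset.range 40, ∑ j ∈ Finset.range 40,
    inv (i + j) * (((A.getD i 0 : ℤ) : ℝ) * ((A.getD j 0 : ℤ) : ℝ)) := by
  have h1 : q = monomial 0 1 + ∑ i ∈ Finset.range 40, ∑ j ∈ Finset.range 40,
      monomial (i + j) (((A.getD i 0 : ℤ) : ℝ) * ((A.getD j 0 : ℤ) : ℝ)) := by
    unfold q P
    rw [sq, Finset.sum_mul_sum, add_comm]
    simp only [monomial_mul_monomial]
    rw [monomial_zero_left, C_1]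
  rw [h1, map_add, map_sum, Lam_monomial]
  have h0 : inv 0 * 1 = 1 := by simp [inv]
  rw [h0]
  simp only [map_sum, Lam_monomial]

lemma f_one : f.eval 1 < 0 := by
  have h1 : f.eval 1 = Lam q := rfl
  rw [h1, Lam_q]
  have hD : (0 : ℝ) < Den := by
    exact_mod_cast Den_pos
  have key : ∀ i ∈ Finset.range 40, ∀ j ∈ Finset.range 40,
      ((A.getD i 0 * A.getD j 0 * ((i + j).factorial : ℤ) *
      ((Den / (1 + (i + j) + (i + j) ^ 2) : ℕ) : ℤ) : ℤ) : ℝ) =
      Den * (inv (i + j) * (((A.getD i 0 : ℤ) : ℝ) * ((A.getD j 0 : ℤ) : ℝ))) := by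
    intro i hi j hj
    rw [Finset.mem_range] at hi hj
    have hdvd : (1 + (i + j) + (i + j) ^ 2) ∣ Den := dvd_Den (by omega : i + j < 79)
    have hne : ((1 + (i + j) + (i + j) ^ 2 : ℕ) : ℝ) ≠ 0 := by positivity
    have h2 : ((Den / (1 + (i + j) + (i + j) ^ 2) : ℕ) : ℝ) =
        (Den : ℝ) / ((1 + (i + j) + (i + j) ^ 2 : ℕ) : ℝ) := Nat.cast_div hdvd hne
    have h3 : ((((Den / (1 + (i + j) + (i + j) ^ 2) : ℕ) : ℤ)) : ℝ) =
        (Den : ℝ) / ((1 + (i + j) + (i + j) ^ 2 : ℕ) : ℝ) := by
      rw [Int.cast_natCast, h2]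
    rw [Int.cast_mul, Int.cast_mul, Int.cast_mul, h3, Int.cast_natCast]
    unfold inv
    push_cast
    ring
  have hnum := numeric
  have hcast : ((((Den : ℤ) + ∑ i ∈ Finset.range 40, ∑ j ∈ Finset.range 40,
    A.getD i 0 * A.getD j 0 * ((i + j).factorial : ℤ) *
      ((Den / (1 + (i + j) + (i + j) ^ 2) : ℕ) : ℤ) : ℤ)) : ℝ) < 0 := by
    have h5 := (Int.cast_lt (R := ℝ)).2 hnum
    rw [Int.cast_zero] at h5
    exact h5
  rw [Int.cast_add, Int.cast_sum, Int.cast_natCast] at hcast
  have h4 : ∑ i ∈ Finset.range 40, (((∑ j ∈ Finset.range 40,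
    A.getD i 0 * A.getD j 0 * ((i + j).factorial : ℤ) *
      ((Den / (1 + (i + j) + (i + j) ^ 2) : ℕ) : ℤ)) : ℤ) : ℝ) =
      Den * ∑ i ∈ Finset.range 40, ∑ j ∈ Finset.range 40,
      inv (i + j) * (((A.getD i 0 : ℤ) : ℝ) * ((A.getD j 0 : ℤ) : ℝ)) := by
    rw [Finset.mul_sum]
    apply Finset.sum_congr rfl
    intro i hi
    rw [Int.cast_sum, Finset.mul_sum]
    apply Finset.sum_congr rfl
    intro j hj
    exact key i hi j hj
  rw [h4] at hcast
  by_contra hcon
  push Not at hcon
  have := mul_nonneg hD.le hcon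
  linarith

lemma f_zero : 0 < f.eval 0 := by
  have h1 : f.eval 0 = q.eval 0 := by
    rw [← coeff_zero_eq_eval_zero, ← coeff_zero_eq_eval_zero]
    unfold f
    rw [coeff_hm]
    simp [inv]
  rw [h1]
  exact q_pos 0

/-- `f` has a real zero -/
lemma f_root : ∃ r : ℝ, f.eval r = 0 := by
  have h1 := intermediate_value_Icc' (zero_le_one : (0 : ℝ) ≤ 1) (f := fun x => f.eval x)
    f.continuous.continuousOn
  obtain ⟨r, _, hr⟩ := h1 ⟨f_one.le, f_zero.le⟩
  exact ⟨r, hr⟩

lemma f_ne : f ≠ 0 := by
  intro h
  have := f_zero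
  rw [h] at this
  simp at this

lemma q_ne : q ≠ 0 := by
  intro h
  have := q_pos 0
  rw [h] at this
  simp at this

lemma count_q : nonrealCount q = q.natDegree := by
  classical
  unfold nonrealCount
  have h1 : ∀ z ∈ (q.map (algebraMap ℝ ℂ)).roots, z.im ≠ 0 := by
    intro z hz him
    have h2 := (mem_roots'.1 hz).2
    rw [IsRoot.def, eval_map_algebraMap] at h2
    have h3 : ((z.re : ℝ) : ℂ) = z := Complex.ext (by simp) (by simp [him])
    rw [← h3, aeval_ofReal] at h2
    have h4 : q.eval z.re = 0 := by exact_mod_cast h2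
    exact (q_pos z.re).ne' h4
  have h2 : (q.map (algebraMap ℝ ℂ)).roots.card = q.natDegree := by
    rw [← natDegree_map (algebraMap ℝ ℂ)]
    exact (IsAlgClosed.splits _).natDegree_eq_card_roots.symm
  rw [← h2]
  convert Multiset.countP_eq_card.2 h1

lemma count_f : nonrealCount f < f.natDegree := by
  classical
  unfold nonrealCount
  obtain ⟨r, hr⟩ := f_root
  have h0 : f.map (algebraMap ℝ ℂ) ≠ 0 := (Polynomial.map_ne_zero_iff (algebraMap ℝ ℂ).injective).2 f_ne
  have h1 : (r : ℂ) ∈ (f.map (algebraMap ℝ ℂ)).roots := by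
    rw [mem_roots h0, IsRoot.def, eval_map_algebraMap, aeval_ofReal, hr]
    simp
  have h2 : (f.map (algebraMap ℝ ℂ)).roots.card ≤ f.natDegree := by
    rw [← natDegree_map (algebraMap ℝ ℂ)]
    exact card_roots' _
  have h3 : Multiset.countP (fun z : ℂ => z.im ≠ 0) (f.map (algebraMap ℝ ℂ)).roots <
      (f.map (algebraMap ℝ ℂ)).roots.card := by
    apply lt_of_le_of_ne (Multiset.countP_le_card _ _)
    intro h
    have := Multiset.countP_eq_card.1 h _ h1
    simp at this
  refine lt_of_lt_of_le ?_ h2
  convert h3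

/-- `((1 + k + k^2)/k!)` is not a complex zero decreasing sequence. -/
theorem result : ¬ IsCZDS (fun k => (1 + (k : ℝ) + (k : ℝ) ^ 2) / (k.factorial : ℝ)) := by
  intro h
  have h1 := h f
  have h2 : diagOp (fun k => (1 + (k : ℝ) + (k : ℝ) ^ 2) / (k.factorial : ℝ)) f = q := op_f
  rw [h2, count_q] at h1
  have h3 := count_f
  have h4 : f.natDegree ≤ q.natDegree := hm_natDegree_le _ _
  omega

end Pool.Agent.Results.MP_664f87_an.NotComplexZeroDecreasing
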